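import Mathlib
import Pool.Agent.H41.Pl6

set_option autoImplicit false

open Pool.Agent.H41.Pl

theorem Pool.Agent.Results.MP_4aa5c9_gt.Yes.result (Y : Type*) [MetricSpace Y]
    [TopologicalSpace.SeparableSpace Y] (hY : KCrowded Y) :
    ∃ X : Set Y, Plastic X ∧ Dense X ∧ SigmaCompactSpace X ∧ KCrowded X := by
  obtain ⟨X, h1, h2, h3, h4⟩ := exists_plastic_dense hY
  exact ⟨X, h1, h2, isSigmaCompact_iff_sigmaCompactSpace.1 h3, h4⟩
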